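import Pool.Agent.P.MP_731e7b_an.Core
import Pool.Agent.P.MP_731e7b_an.Coer
import Pool.Agent.P.MP_731e7b_an.Sj
import Pool.Agent.P.MP_731e7b_an.Dom

open MeasureTheory Set

namespace Pool.Agent.Results.MP_731e7b_an.DominantTile

/-- Let `f` be integrable and tile the line at level `w` with an arbitrary translation set `Λ`.
Suppose that the absolute series is bounded by `W` almost everywhere and that `|f| > W / 2` on a
set of positive measure.  Then `Λ` is a finite disjoint union of translates of one lattice `a ℤ`.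
(For the indicator function of a set of finite positive measure and `w = W = 1` this is the
periodicity of all tilings of the line by a measurable, possibly unbounded, tile.) -/
theorem result (f : ℝ → ℂ) (hf : Integrable f) (Λ : Set ℝ) (w : ℂ) (W : ℝ)
    (habs : ∀ᵐ x : ℝ, Summable (fun l : Λ => ‖f (x - l)‖) ∧ ∑' l : Λ, ‖f (x - l)‖ ≤ W)
    (htile : ∀ᵐ x : ℝ, ∑' l : Λ, f (x - l) = w)
    (hdom : 0 < volume {x : ℝ | W / 2 < ‖f x‖}) :
    ∃ a : ℝ, 0 < a ∧ ∃ (N : ℕ) (b : Fin N → ℝ),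
      Λ = ⋃ j, {x : ℝ | ∃ k : ℤ, x = a * k + b j} ∧
      Pairwise fun i j =>
        Disjoint {x : ℝ | ∃ k : ℤ, x = a * k + b i} {x : ℝ | ∃ k : ℤ, x = a * k + b j} := by
  obtain ⟨c, hc, hR⟩ := P.MP_731e7b_an.riesz_of_dominant
    (fun δ κ hδ hκ p hp0 hp => P.MP_731e7b_an.sjostrand δ κ hδ hκ p hp0 hp) f hf Λ W habs hdom
  obtain ⟨K, c0, hK, hKf, hc0, hco⟩ := P.MP_731e7b_an.coer f hf Λ W c hc habs hR
  exact P.MP_731e7b_an.core f hf Λ w htile K c0 hK hKf hc0 hco

end Pool.Agent.Results.MP_731e7b_an.DominantTile
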